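import Pool.Agent.X250.RT.Fin

/-!
# Zero in the spectrum for the closed aspherical manifolds of the reflection group trick

Davis' reflection group trick: let `N` be a compact aspherical manifold with nonempty boundary and fundamental group `π`,
and let `G` be the one-skeleton of the triangulation of the boundary of the universal cover of `N` lifted from a flag
triangulation of the boundary of `N`.  The group `π` acts on `G`, hence on the right-angled Coxeter group `W G`.
Reflecting `N` one gets closed aspherical manifolds `M` which retract onto `N`; their fundamental groups are torsion-free
subgroups `Γ` of finite index of `W G ⋊ π`.  Every finite aspherical complex is homotopy equivalent to such an `N`.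

We show that `H_i(M; C*_r(Γ)) ≠ 0` for some `i ≤ dim M`, without any assumption on `π`: the Novikov conjecture is not
known for these groups.  The theorem is about all finite aspherical complexes `M` with fundamental group `Γ`; such a
complex enters through the cellular chain complex of its universal cover, which is a finite free resolution of the trivial
`ℤ[Γ]`-module `ℤ` (`Pool.Agent.H919R4.ZS.FinRes`).  The reduced group `C*`-algebra and the homology with coefficients in
it are defined in `Pool.Agent.H919R4.ZS.Defs`, the Coxeter group `W G` in `Pool.Agent.W907.SG.Defs`.

The idea of the proof: the regular representation of `P = W G ⋊ π` is a member, for `x = 1/2`, of a norm continuous family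
of representations of the group algebra on `ℓ²(P)` for which the delta function at `1` gives a trace, under which the
idempotent `(1 - s) / 2` has trace `x` for every generator `s` of `W G`.  If the homology vanishes, then a chain
contraction over the reduced `C*`-algebra can be approximated over the group ring, so for `x` near `1/2` the Euler
characteristic of `P` with respect to these traces is zero.  It is `χ(π)` plus the sum of the `(-x)^|T|` over the
`π`-orbits of nonempty cliques `T` of `G`, computed with an algebraic form of the Davis complex, and this is a polynomial
in `x` which is not zero.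
-/

set_option autoImplicit false

namespace Pool.Agent.Results.MP_48737f_gt.ReflectionTrick

open Pool.Agent.W907.SG (W cox)
open Pool.Agent.H919R4.ZS (FinRes toRed)

/-- Let `π` be a group with a finite free resolution of `ℤ` over `ℤ[π]`, acting by automorphisms on a nonempty locally
finite graph `G`, with finitely many orbits of vertices, so that only the neutral element maps a nonempty clique to itself.
Then the action extends to the right-angled Coxeter group `W G`.  Let `Γ` be a subgroup of finite index of `W G ⋊ π`, and
let `X` be a finite free resolution of `ℤ` over `ℤ[Γ]`.  Then the homology of `X` with coefficients in the reduced group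
`C*`-algebra of `Γ` does not vanish in some degree `i` which is at most the length of `X`. -/
theorem result (π : Type) [Group π] (Y : FinRes π) (V : Type) [Nonempty V] [MulAction π V] (G : SimpleGraph V)
    (hadj : ∀ (g : π) (u v : V), G.Adj u v → G.Adj (g • u) (g • v))
    (hfree : ∀ (g : π) (T : Finset V), G.IsClique (T : Set V) → T.Nonempty → (∀ v ∈ T, g • v ∈ T) → g = 1)
    (hfin : ∃ F : Finset V, ∀ v : V, ∃ g : π, ∃ u ∈ F, g • u = v)
    (hloc : ∀ v : V, (G.neighborSet v).Finite) :
    ∃ φ : π →* MulAut (W G), (∀ (g : π) (v : V), φ g ((cox G).simple v) = (cox G).simple (g • v)) ∧
      ∀ (Γ : Subgroup (W G ⋊[φ] π)) [Γ.FiniteIndex] (X : FinRes Γ),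
        ∃ i ≤ X.len, Nontrivial (X.homology (toRed Γ) i) := by
  obtain ⟨φ, hφ⟩ := Pool.Agent.X250.RT.exists_phi hadj
  refine ⟨φ, hφ, fun Γ _ X => ?_⟩
  by_contra hcon
  push Not at hcon
  refine Pool.Agent.X250.RT.main' hadj hfree hfin hloc Y φ hφ Γ X fun i => ?_
  by_cases hi : i ≤ X.len
  · exact hcon i hi
  · have h1 : X.n i = 0 := X.n_eq_zero i (not_le.1 hi)
    have h2 : IsEmpty (Fin (X.n i)) := by
      rw [h1]
      infer_instance
    have h3 : Subsingleton (X.cyc (toRed Γ) i) := ⟨fun a b => Subtype.ext (funext fun j => h2.elim j)⟩
    refine ⟨fun a b => ?_⟩
    obtain ⟨a, rfl⟩ := Submodule.Quotient.mk_surjective _ a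
    obtain ⟨b, rfl⟩ := Submodule.Quotient.mk_surjective _ b
    rw [h3.elim a b]

end Pool.Agent.Results.MP_48737f_gt.ReflectionTrick
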