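import Pool.Agent.X270.NT.Sep

/-!
Zero in the spectrum for a closed aspherical manifold `M` with fundamental group `G`, from slowly
varying weights: non-vanishing of weighted `ℓ²`-cohomology or homology for arbitrarily slowly
varying weights, and separation of the universal covering by subsets of subexponential growth.

A closed aspherical manifold `M` with fundamental group `G` is homotopy equivalent to a finite CW
complex, and the cellular chain complex of the universal cover of that complex is a finite free
resolution `X` of the trivial `ℤ[G]`-module `ℤ` (`Pool.Agent.H919R4.ZS.FinRes`). Its homology with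
coefficients in `C*_r(G)` is the homology of `M` with these coefficients. The definitions of
`SeenByWeight` and `Separated` are in `Pool.Agent.X270.NT.StmtW`.
-/

set_option autoImplicit false

namespace Pool.Agent.Results.MP_48737f_gt.SlowWeights

open Pool.Agent.H919R4.ZS (FinRes toRed)
open Pool.Agent.X270.NT.W (SeenByWeight Separated)

/-- Let `X` be a finite free resolution of `ℤ` over `ℤ[G]` and let `p : ℕ`. Suppose that for every
finite `S ⊆ G` and every `ε > 0` there are a `G`-set `Z`, with stabilisers which are amenable or of
exponent at most `ε` with respect to `S`, and a weight `μ` on `Z` which varies under `S` at most by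
the factor `e^ε`, with `H^i(G; ℓ²(Z, μ)) ≠ 0` or `H_i(G; ℓ²(Z, μ)) ≠ 0` for some `i ≤ p`; or
suppose that `p ≥ 1` and that for all these `S` and `ε` there are such `Z` and `μ`, with `Z`
transitive, and a subset `A ⊆ Z` such that `A` and its complement have infinite `μ`-mass and the
symmetric differences of `A` with its translates have finite `μ`-mass. Then the homology of `X`
with coefficients in `C*_r(G)` does not vanish in some degree `i ≤ p`. -/
theorem result (G : Type) [Group G] (X : FinRes G) (p : ℕ)
    (h : (∀ (S : Set G) (ε : ℝ), S.Finite → 0 < ε → SeenByWeight X p S ε) ∨
      (1 ≤ p ∧ ∀ (S : Set G) (ε : ℝ), S.Finite → 0 < ε → Separated G S ε)) :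
    ∃ i ≤ p, Nontrivial (X.homology (toRed G) i) :=
  Pool.Agent.X270.NT.W.finalSep X p h

end Pool.Agent.Results.MP_48737f_gt.SlowWeights
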