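import Pool.Agent.X270.NT.FinalU

/-!
Zero in the spectrum for a closed aspherical manifold `M` with fundamental group `G`, from unitary
representations of `G` whose coefficients are close to being square summable: coefficients of
small exponent, or coefficients in `ℓ^q(G)` for `q > 2` close to `2`.

A closed aspherical manifold `M` with fundamental group `G` is homotopy equivalent to a finite CW
complex, and the cellular chain complex of the universal cover of that complex is a finite free
resolution `X` of the trivial `ℤ[G]`-module `ℤ` (`Pool.Agent.H919R4.ZS.FinRes`). Its homology with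
coefficients in `C*_r(G)` is the homology of `M` with these coefficients. The definitions of
`SeenByUnitary` and `SeenByLq` are in `Pool.Agent.X270.NT.StmtU`.
-/

set_option autoImplicit false

namespace Pool.Agent.Results.MP_48737f_gt.UnitaryCoefficients

open Pool.Agent.H919R4.ZS (FinRes toRed)
open Pool.Agent.X270.NT.U (SeenByUnitary SeenByLq)

/-- Let `X` be a finite free resolution of `ℤ` over `ℤ[G]` and let `p : ℕ`. Suppose that for every
finite `S ⊆ G` and every `ε > 0` there is a unitary representation of `G` on a Hilbert space `H`
with a total set of vectors `v` such that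
`∑_{g ∈ F} |⟨π(g) v, v⟩|² ≤ K_v e^(ε m)` for all `m` and all finite `F ⊆ S^m`,
and with `H^i(G; H) ≠ 0` or `H_i(G; H) ≠ 0` for some `i ≤ p`; or suppose that for every real
`q > 2` there is a unitary representation of `G` on a Hilbert space `H` with a total set of
vectors `v` such that `∑_g |⟨π(g) v, v⟩|^q < ∞` and with `H^i(G; H) ≠ 0` or `H_i(G; H) ≠ 0` for
some `i ≤ p`. Then the homology of `X` with coefficients in `C*_r(G)` does not vanish in some
degree `i ≤ p`. -/
theorem result (G : Type) [Group G] (X : FinRes G) (p : ℕ)
    (h : (∀ (S : Set G) (ε : ℝ), S.Finite → 0 < ε → SeenByUnitary X p S ε) ∨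
      (∀ q : ℝ, 2 < q → SeenByLq X p q)) :
    ∃ i ≤ p, Nontrivial (X.homology (toRed G) i) :=
  Pool.Agent.X270.NT.U.finalU X p h

end Pool.Agent.Results.MP_48737f_gt.UnitaryCoefficients
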